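import Pool.Agent.KS6_30.VF.Diag

/-!
# The arithmetic normal form of nondegenerate ternary quadratic forms over `ℚ`, up to scaling
-/

set_option autoImplicit false

namespace Pool.Agent.KS6_53.V5F

open Matrix

/-- `T` has the diagonal form with the coefficients `1 / d i`, up to scaling -/
def NF (T : Matrix (Fin 3) (Fin 3) ℚ) (d : Fin 3 → ℤ) : Prop :=
  (∀ i, d i ≠ 0) ∧ ∃ (h : Matrix (Fin 3) (Fin 3) ℚ) (t : ℚ), IsUnit h.det ∧ t ≠ 0 ∧
    T = t • (hᵀ * Matrix.diagonal (fun i => (d i : ℚ)⁻¹) * h)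

theorem NF.step {T : Matrix (Fin 3) (Fin 3) ℚ} {d d' : Fin 3 → ℤ} (hn : NF T d) (hd' : ∀ i, d' i ≠ 0)
    (e : Fin 3 → ℚ) (s : ℚ) (he : ∀ i, e i ≠ 0) (hs : s ≠ 0)
    (h1 : ∀ i, (d i : ℚ)⁻¹ = s * (e i ^ 2 * (d' i : ℚ)⁻¹)) : NF T d' := by
  obtain ⟨-, h, t, hh, ht, hT⟩ := hn
  refine ⟨hd', diagonal e * h, t * s, ?_, mul_ne_zero ht hs, ?_⟩
  · rw [det_mul, det_diagonal]
    exact (IsUnit.mk0 _ (Finset.prod_ne_zero_iff.2 fun i _ => he i)).mul hh
  · rw [hT, mul_smul]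
    congr 1
    have h2 : (diagonal fun i => (d i : ℚ)⁻¹) =
        s • (diagonal e * diagonal (fun i => (d' i : ℚ)⁻¹) * diagonal e) := by
      rw [diagonal_mul_diagonal, diagonal_mul_diagonal]
      ext i j
      by_cases hij : i = j
      · subst hij
        rw [diagonal_apply_eq, Matrix.smul_apply, diagonal_apply_eq, h1, smul_eq_mul]
        ring
      · rw [diagonal_apply_ne _ hij, Matrix.smul_apply, diagonal_apply_ne _ hij, smul_zero]
    rw [h2, transpose_mul, diagonal_transpose]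
    simp only [Matrix.mul_assoc, Matrix.smul_mul, Matrix.mul_smul]

theorem third : ∀ i j : Fin 3, i ≠ j → ∃ k : Fin 3, k ≠ i ∧ k ≠ j ∧ ∀ l, l = i ∨ l = j ∨ l = k := by
  decide

/-- removal of a common prime factor -/
theorem NF.descent {T : Matrix (Fin 3) (Fin 3) ℚ} {d : Fin 3 → ℤ} (hn : NF T d) {i j : Fin 3}
    (hij : i ≠ j) {p : ℕ} (hp : p.Prime) (hi : (p : ℤ) ∣ d i) (hj : (p : ℤ) ∣ d j) :
    ∃ d' : Fin 3 → ℤ, NF T d' ∧ (∏ l, d' l).natAbs < (∏ l, d l).natAbs := by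
  obtain ⟨k, hki, hkj, hall⟩ := third i j hij
  obtain ⟨u, hu⟩ := hi
  obtain ⟨v, hv⟩ := hj
  have hp0 : (p : ℚ) ≠ 0 := by exact_mod_cast hp.ne_zero
  have hpz : (p : ℤ) ≠ 0 := by exact_mod_cast hp.ne_zero
  have hd := hn.1
  have hu0 : u ≠ 0 := by
    rintro rfl
    exact hd i (by rw [hu, mul_zero])
  have hv0 : v ≠ 0 := by
    rintro rfl
    exact hd j (by rw [hv, mul_zero])
  set d' : Fin 3 → ℤ := fun l => if l = i then u else if l = j then v else p * d k with hd'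
  have e1 : d' i = u := by simp [hd']
  have e2 : d' j = v := by simp [hd', hij.symm]
  have e3 : d' k = p * d k := by simp [hd', hki, hkj]
  have hd'0 : ∀ l, d' l ≠ 0 := by
    intro l
    rcases hall l with rfl | rfl | rfl
    · rwa [e1]
    · rwa [e2]
    · rw [e3]
      exact mul_ne_zero hpz (hd _)
  refine ⟨d', hn.step hd'0 (fun l => if l = k then (p : ℚ) else 1) (p : ℚ)⁻¹ ?_ (inv_ne_zero hp0) ?_, ?_⟩
  · intro l
    split_ifs
    · exact hp0
    · exact one_ne_zero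
  · intro l
    rcases hall l with rfl | rfl | rfl
    · rw [e1, hu, if_neg hki.symm]
      push_cast
      field_simp
    · rw [e2, hv, if_neg hkj.symm]
      push_cast
      field_simp
    · rw [if_pos rfl, e3]
      have : (d l : ℚ) ≠ 0 := by exact_mod_cast hd l
      push_cast
      field_simp
  · have hprod : ∀ f : Fin 3 → ℤ, ∏ l, f l = f i * f j * f k := by
      intro f
      have h1 : (Finset.univ : Finset (Fin 3)) = {i, j, k} := by
        ext l
        simp only [Finset.mem_univ, Finset.mem_insert, Finset.mem_singleton, true_iff]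
        exact hall l
      rw [h1, Finset.prod_insert, Finset.prod_insert, Finset.prod_singleton, mul_assoc]
      · simpa using hkj.symm
      · simp only [Finset.mem_insert, Finset.mem_singleton, not_or]
        exact ⟨hij, hki.symm⟩
    rw [hprod, hprod, e1, e2, e3, hu, hv]
    have h2 : (p * u * (p * v) * d k : ℤ) = p * (u * v * (p * d k)) := by ring
    rw [h2, Int.natAbs_mul p, Int.natAbs_natCast]
    have h3 : 0 < (u * v * (p * d k)).natAbs :=
      Int.natAbs_pos.2 (mul_ne_zero (mul_ne_zero hu0 hv0) (mul_ne_zero hpz (hd k)))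
    have := hp.two_le
    nlinarith

theorem exists_NF (T : Matrix (Fin 3) (Fin 3) ℚ) (hT : T.IsSymm) (hd : T.det ≠ 0) : ∃ d, NF T d := by
  obtain ⟨h, f, hh, hf⟩ := Pool.Agent.KS6_30.VF.exists_diag T hT
  have hf0 : ∀ i, f i ≠ 0 := by
    rw [hf, det_mul, det_mul, det_diagonal] at hd
    have h1 := right_ne_zero_of_mul (left_ne_zero_of_mul hd)
    exact fun i => Finset.prod_ne_zero_iff.1 h1 i (Finset.mem_univ i)
  -- `f i = n / m = n² / (n m)`
  refine ⟨fun i => (f i).num * (f i).den, fun i => mul_ne_zero (Rat.num_ne_zero.2 (hf0 i))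
    (by exact_mod_cast (f i).den_ne_zero), diagonal (fun i => ((f i).num : ℚ)) * h, 1, ?_, one_ne_zero, ?_⟩
  · rw [det_mul, det_diagonal]
    refine (IsUnit.mk0 _ (Finset.prod_ne_zero_iff.2 fun i _ => ?_)).mul hh
    exact_mod_cast Rat.num_ne_zero.2 (hf0 i)
  · rw [one_smul]
    have h2 : diagonal f = diagonal (fun i => ((f i).num : ℚ)) *
        diagonal (fun i => (((f i).num * (f i).den : ℤ) : ℚ)⁻¹) * diagonal (fun i => ((f i).num : ℚ)) := by
      rw [diagonal_mul_diagonal, diagonal_mul_diagonal]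
      congr 1
      funext i
      have h3 : ((f i).num : ℚ) ≠ 0 := by exact_mod_cast Rat.num_ne_zero.2 (hf0 i)
      have h4 : ((f i).den : ℚ) ≠ 0 := by exact_mod_cast (f i).den_ne_zero
      have h5 := Rat.num_div_den (f i)
      push_cast
      refine h5.symm.trans ?_
      field_simp
    rw [hf, h2, transpose_mul, diagonal_transpose]
    simp only [Matrix.mul_assoc]

theorem legendre (T : Matrix (Fin 3) (Fin 3) ℚ) (hT : T.IsSymm) (hd : T.det ≠ 0) :
    ∃ (h : Matrix (Fin 3) (Fin 3) ℚ) (t : ℚ) (a b c : ℤ), IsUnit h.det ∧ t ≠ 0 ∧ a ≠ 0 ∧ b ≠ 0 ∧ c ≠ 0 ∧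
      IsCoprime a b ∧ IsCoprime b c ∧ IsCoprime c a ∧
      T = t • (hᵀ * Matrix.diagonal ![(a : ℚ)⁻¹, (b : ℚ)⁻¹, (c : ℚ)⁻¹] * h) := by
  classical
  obtain ⟨d0, hd0⟩ := exists_NF T hT hd
  have hex : ∃ n : ℕ, ∃ d, NF T d ∧ (∏ l, d l).natAbs = n := ⟨_, d0, hd0, rfl⟩
  obtain ⟨d, hn, hdn⟩ := Nat.find_spec hex
  have hmin : ∀ d', NF T d' → (∏ l, d l).natAbs ≤ (∏ l, d' l).natAbs := by
    intro d' hd'
    rw [hdn]
    exact Nat.find_min' hex ⟨d', hd', rfl⟩
  have hcop : ∀ i j, i ≠ j → IsCoprime (d i) (d j) := by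
    intro i j hij
    rw [Int.isCoprime_iff_gcd_eq_one]
    by_contra hne
    obtain ⟨p, hp, hpg⟩ := Nat.exists_prime_and_dvd hne
    have hi : (p : ℤ) ∣ d i := (Int.natCast_dvd_natCast.2 hpg).trans (Int.gcd_dvd_left _ _)
    have hj : (p : ℤ) ∣ d j := (Int.natCast_dvd_natCast.2 hpg).trans (Int.gcd_dvd_right _ _)
    obtain ⟨d', h1, h2⟩ := hn.descent hij hp hi hj
    exact absurd (hmin d' h1) (not_le.2 h2)
  obtain ⟨hd1, h, t, hh, ht, hTe⟩ := hn
  refine ⟨h, t, d 0, d 1, d 2, hh, ht, hd1 0, hd1 1, hd1 2, hcop 0 1 (by decide), hcop 1 2 (by decide),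
    hcop 2 0 (by decide), ?_⟩
  rw [hTe]
  congr 4
  funext i
  fin_cases i <;> rfl

end Pool.Agent.KS6_53.V5F
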